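import Pool.Agent.H22.SO.Exceptional
import Pool.Agent.H22.SO.Transport
import Pool.Agent.H22.SO.Seq

/-!
# Finite simple groups whose order is a perfect square

No order in the classification table of the finite simple groups, the groups `PSp_{2n}(q)`
excepted, is a perfect square, and for a prime power `q` and `n ≥ 2` the order of `PSp_{2n}(q)` is a
perfect square iff `n = 2` and `q` is a prime NSW number.  So a finite simple group of square order
is `PSp_4(p)` with `p` a prime NSW number.
-/

set_option autoImplicit false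

namespace Pool.Agent.Results.MP_6dec61_al.SquareOrder

open Pool.Agent.H22.SO

theorem result :
    -- no order of the table outside the symplectic family is a square
    (∀ N : ℕ, NonSymplecticOrder N → ¬ IsSquare N) ∧
    -- the orders of `PSp_{2n}(q)`, `q` any prime power
    (∀ N n q : ℕ, 2 ≤ n → IsPrimePow q → IsPSpOrder N n q →
      (IsSquare N ↔ n = 2 ∧ q.Prime ∧ ∃ m : ℕ, q = nswSeq (2 * m + 1))) ∧
    -- a group of the table with square order is `PSp_4(p)`, `p` a prime NSW number
    (∀ (G : Type) [Group G], InTable G → IsSquare (Nat.card G) →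
      ∃ p : ℕ, p.Prime ∧ (∃ m : ℕ, p = nswSeq (2 * m + 1)) ∧
        Nonempty (G ≃* PSp 2 (ZMod p))) := by
  have part2 : ∀ N n q : ℕ, 2 ≤ n → IsPrimePow q → IsPSpOrder N n q →
      (IsSquare N ↔ n = 2 ∧ q.Prime ∧ ∃ m : ℕ, q = nswSeq (2 * m + 1)) := by
    intro N n q hn hq h
    have hsol : (∃ y, q ^ 2 + 1 = 2 * y ^ 2) ↔ ∃ m : ℕ, q = nswSeq (2 * m + 1) := by
      constructor
      · rintro ⟨y, hy⟩
        obtain ⟨m, hm, -⟩ := nsw_of_eq y q hy
        exact ⟨m, hm⟩
      · rintro ⟨m, hm⟩
        exact ⟨_, by rw [hm]; exact nsw_eq m⟩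
    by_cases h3 : 3 ≤ n
    · constructor
      · intro hN
        exact absurd hN (psp_ge_three h3 hq.two_le h)
      · rintro ⟨rfl, -⟩
        omega
    · have : n = 2 := by omega
      subst this
      rw [psp_two hq h, hsol]
      simp
  refine ⟨fun N h => nonSymplectic h, part2, ?_⟩
  intro G _ hG hN
  rcases hG with h | ⟨n, hn, F, _, _, h, ⟨e⟩⟩
  · exact absurd hN (nonSymplectic h)
  · have : Fintype F := Fintype.ofFinite F
    have hq : IsPrimePow (Nat.card F) := by
      rw [Nat.card_eq_fintype_card]
      exact FiniteField.isPrimePow_card F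
    obtain ⟨rfl, hp, hm⟩ := (part2 _ n _ hn hq h).1 hN
    refine ⟨Nat.card F, hp, hm, ⟨e.trans (pspEquiv 2 ?_)⟩⟩
    exact (ZMod.ringEquivOfPrime F hp (by rw [Nat.card_eq_fintype_card])).symm

end Pool.Agent.Results.MP_6dec61_al.SquareOrder
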